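import Pool.Agent.Q196.AB.Signed

set_option autoImplicit false

/-! Barycentres of measures on compact convex sets; affine functions of the first Baire class
satisfy the barycentric formula. -/

namespace Pool.Agent.Q196.AB

open MeasureTheory Set Filter Topology

variable {V : Type*} [AddCommGroup V] [Module ℝ V] [TopologicalSpace V]

/-- `f` is affine on the convex set `X`. -/
def IsAff {E : Type*} [AddCommGroup E] [Module ℝ E] {X : Set V} (f : X → E) : Prop :=
  ∀ (x y z : X) (t : ℝ), 0 ≤ t → t ≤ 1 → (z : V) = t • (x : V) + (1 - t) • (y : V) →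
    f z = t • f x + (1 - t) • f y

/-- `x` is the barycentre of `ν`. -/
def Bary {X : Set V} [MeasurableSpace X] (ν : Measure X) (x : V) : Prop :=
  ∀ l : V →L[ℝ] ℝ, ∫ z : X, l (z : V) ∂ν = ν.real univ * l x

theorem integrable_cont {Z : Type*} [TopologicalSpace Z] [CompactSpace Z] [MeasurableSpace Z]
    [BorelSpace Z] {F : Type*} [NormedAddCommGroup F] (ν : Measure Z) [IsFiniteMeasure ν]
    {f : Z → F} (hf : Continuous f) : Integrable f ν :=
  hf.integrable_of_hasCompactSupport (HasCompactSupport.of_compactSpace f)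

theorem exists_bary {X : Set V} [MeasurableSpace X] [BorelSpace X] (hX : IsCompact X)
    (ν : Measure X) [IsFiniteMeasure ν] (h0 : ν ≠ 0) {C : Set V} (hC : IsCompact C)
    (hconv : Convex ℝ C) (hν : ∀ᵐ z : X ∂ν, (z : V) ∈ C) : ∃ x ∈ C, Bary ν x := by
  classical
  have : CompactSpace X := isCompact_iff_compactSpace.1 hX
  have : NeZero ν := ⟨h0⟩
  have hne : ν.real univ ≠ 0 := by
    rw [Measure.real, Ne, ENNReal.toReal_eq_zero_iff, not_or]
    exact ⟨by simpa using h0, measure_ne_top _ _⟩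
  have hlc : ∀ l : V →L[ℝ] ℝ, Continuous (fun z : X => l (z : V)) := fun l =>
    l.continuous.comp continuous_subtype_val
  have h1 : (C ∩ ⋂ l : V →L[ℝ] ℝ, {x | l x = ⨍ z : X, l (z : V) ∂ν}).Nonempty := by
    refine hC.inter_iInter_nonempty _ (fun l => isClosed_eq l.continuous continuous_const) ?_
    intro u
    let Φ : V →L[ℝ] (u → ℝ) := ContinuousLinearMap.pi (fun l => (l : V →L[ℝ] ℝ))
    have hΦc : Continuous (fun z : X => Φ (z : V)) := Φ.continuous.comp continuous_subtype_val
    have hΦi : Integrable (fun z : X => Φ (z : V)) ν := integrable_cont ν hΦc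
    have h2 : (⨍ z : X, Φ (z : V) ∂ν) ∈ Φ '' C := by
      refine Convex.average_mem (hconv.linear_image Φ.toLinearMap)
        (hC.image Φ.continuous).isClosed ?_ hΦi
      filter_upwards [hν] with z hz
      exact ⟨_, hz, rfl⟩
    obtain ⟨x, hx, hxe⟩ := h2
    refine ⟨x, hx, ?_⟩
    simp only [mem_iInter, mem_ofPred_eq]
    intro l hl
    have h3 := congrFun hxe ⟨l, hl⟩
    have h4 : (⨍ z : X, Φ (z : V) ∂ν) ⟨l, hl⟩ = ⨍ z : X, l (z : V) ∂ν := by
      rw [average_eq, average_eq, Pi.smul_apply]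
      congr 1
      have := (ContinuousLinearMap.proj (R := ℝ) (φ := fun _ : u => ℝ)
        (⟨l, hl⟩ : u)).integral_comp_comm hΦi
      exact this.symm
    rw [← h4, ← h3]
    rfl
  obtain ⟨x, hx, hx2⟩ := h1
  refine ⟨x, hx, fun l => ?_⟩
  simp only [mem_iInter, mem_ofPred_eq] at hx2
  rw [hx2 l, average_eq, smul_eq_mul, ← mul_assoc, mul_inv_cancel₀ hne, one_mul]

section LC

variable [IsTopologicalAddGroup V] [ContinuousSMul ℝ V] [LocallyConvexSpace ℝ V] [T2Space V]

theorem bary_unique {X : Set V} [MeasurableSpace X] (ν : Measure X) [IsFiniteMeasure ν]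
    (h0 : ν ≠ 0) {x y : V} (hx : Bary ν x) (hy : Bary ν y) : x = y := by
  have hne : ν.real univ ≠ 0 := by
    rw [Measure.real, Ne, ENNReal.toReal_eq_zero_iff, not_or]
    exact ⟨by simpa using h0, measure_ne_top _ _⟩
  by_contra hxy
  obtain ⟨l, hl⟩ := SeparatingDual.exists_separating_of_ne (R := ℝ) hxy
  apply hl
  have h1 := hx l
  rw [hy l] at h1
  exact (mul_left_cancel₀ hne h1).symm

variable {X : Set V} [MeasurableSpace X] [BorelSpace X]

open Classical in
/-- The barycentre, as a point of `X`. -/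
noncomputable def ctr [Nonempty X] (ν : Measure X) : X :=
  if h : ∃ x : X, Bary ν (x : V) then h.choose else Classical.arbitrary X

theorem ctr_spec [Nonempty X] (hX : IsCompact X) (hconv : Convex ℝ X) (ν : Measure X)
    [IsFiniteMeasure ν] : Bary ν (ctr ν : V) := by
  have h : ∃ x : X, Bary ν (x : V) := by
    by_cases h0 : ν = 0
    · refine ⟨Classical.arbitrary X, fun l => ?_⟩
      rw [h0]; simp
    · obtain ⟨x, hx, hx2⟩ := exists_bary hX ν h0 hX hconv (Eventually.of_forall fun z => z.2)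
      exact ⟨⟨x, hx⟩, hx2⟩
  rw [ctr, dif_pos h]
  exact h.choose_spec

/-- `u` at the barycentre, times the mass. -/
noncomputable def phi [Nonempty X] (u : X → ℝ) (ν : Measure X) : ℝ := ν.real univ * u (ctr ν)

theorem phi_eq [Nonempty X] (hX : IsCompact X) (hconv : Convex ℝ X) (u : X → ℝ) (ν : Measure X)
    [IsFiniteMeasure ν] (x : X) (hx : Bary ν (x : V)) : phi u ν = ν.real univ * u x := by
  by_cases h0 : ν = 0
  · rw [phi, h0]; simp
  · have h1 := bary_unique ν h0 (ctr_spec hX hconv ν) hx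
    rw [phi, Subtype.ext h1]

theorem phi_add [Nonempty X] (hX : IsCompact X) (hconv : Convex ℝ X) (u : X → ℝ) (hu : IsAff u)
    (ν₁ ν₂ : Measure X) [IsFiniteMeasure ν₁] [IsFiniteMeasure ν₂] :
    phi u (ν₁ + ν₂) = phi u ν₁ + phi u ν₂ := by
  have : CompactSpace X := isCompact_iff_compactSpace.1 hX
  have hm : (ν₁ + ν₂).real univ = ν₁.real univ + ν₂.real univ := by
    rw [measureReal_add_apply]
  have h1 : 0 ≤ ν₁.real univ := measureReal_nonneg
  have h2 : 0 ≤ ν₂.real univ := measureReal_nonneg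
  by_cases h0 : ν₁.real univ + ν₂.real univ = 0
  · have h3 : ν₁.real univ = 0 := by linarith
    have h4 : ν₂.real univ = 0 := by linarith
    rw [phi, phi, phi, hm, h3, h4]; simp
  · set a := ν₁.real univ with ha
    set b := ν₂.real univ with hb
    have hab : 0 < a + b := lt_of_le_of_ne (by linarith) (Ne.symm h0)
    have ht0 : 0 ≤ a / (a + b) := by positivity
    have ht1 : a / (a + b) ≤ 1 := by rw [div_le_one hab]; linarith
    have hz : (a / (a + b)) • (ctr ν₁ : V) + (1 - a / (a + b)) • (ctr ν₂ : V) ∈ X :=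
      hconv (ctr ν₁).2 (ctr ν₂).2 ht0 (by linarith) (by ring)
    have h5 : Bary (ν₁ + ν₂) ((a / (a + b)) • (ctr ν₁ : V) + (1 - a / (a + b)) • (ctr ν₂ : V)) := by
      intro l
      have hlc : Continuous (fun z : X => l (z : V)) := l.continuous.comp continuous_subtype_val
      rw [integral_add_measure (integrable_cont ν₁ hlc) (integrable_cont ν₂ hlc),
        ctr_spec hX hconv ν₁ l, ctr_spec hX hconv ν₂ l, hm, map_add, map_smul, map_smul]
      simp only [smul_eq_mul]
      rw [← ha, ← hb]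
      field_simp
      ring
    have h6 := phi_eq hX hconv u (ν₁ + ν₂) ⟨_, hz⟩ h5
    have h7 := hu (ctr ν₁) (ctr ν₂) ⟨_, hz⟩ _ ht0 ht1 rfl
    rw [h6, h7, hm, phi, phi, ← ha, ← hb]
    simp only [smul_eq_mul]
    field_simp
    ring

end LC

end Pool.Agent.Q196.AB
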