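import Pool.Agent.Q196.AB.Bary

set_option autoImplicit false

/-! Affine functions of the first Baire class satisfy the barycentric formula. -/

namespace Pool.Agent.Q196.AB

open MeasureTheory Set Filter Topology

theorem baire_pt {Z : Type*} [TopologicalSpace Z] [CompactSpace Z] [T2Space Z] [Nonempty Z]
    (u : Z → ℝ) (un : ℕ → Z → ℝ) (hc : ∀ n, Continuous (un n))
    (hl : ∀ z, Tendsto (fun n => un n z) atTop (𝓝 (u z))) (ε : ℝ) (hε : 0 < ε) :
    ∃ U : Set Z, IsOpen U ∧ ∃ z0 ∈ U, ∀ z ∈ U, |u z - u z0| ≤ ε := by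
  let A : ℕ → Set Z := fun n => ⋂ j ≥ n, {z | |un j z - un n z| ≤ ε / 3}
  have hA : ∀ n, IsClosed (A n) := fun n => by
    refine isClosed_iInter fun j => isClosed_iInter fun _ => ?_
    exact isClosed_le ((hc j).sub (hc n)).abs continuous_const
  have hU : ⋃ n, A n = univ := by
    rw [eq_univ_iff_forall]
    intro z
    have h1 := (hl z).cauchySeq
    rw [Metric.cauchySeq_iff'] at h1
    obtain ⟨N, hN⟩ := h1 (ε / 3) (by positivity)
    rw [mem_iUnion]
    refine ⟨N, ?_⟩
    simp only [A, mem_iInter]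
    intro j hj
    exact (hN j hj).le
  obtain ⟨n, z0, hz0⟩ := nonempty_interior_of_iUnion_of_closed hA hU
  have hclose : ∀ z ∈ interior (A n), |u z - un n z| ≤ ε / 3 := by
    intro z hz
    have h1 := interior_subset hz
    simp only [A, mem_iInter] at h1
    have h2 : Tendsto (fun j => |un j z - un n z|) atTop (𝓝 |u z - un n z|) :=
      ((hl z).sub_const _).abs
    refine le_of_tendsto h2 ?_
    filter_upwards [eventually_ge_atTop n] with j hj
    exact h1 j hj
  refine ⟨interior (A n) ∩ {z | |un n z - un n z0| < ε / 3}, ?_, z0, ⟨hz0, ?_⟩, ?_⟩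
  · exact isOpen_interior.inter (isOpen_lt ((hc n).sub continuous_const).abs continuous_const)
  · show |un n z0 - un n z0| < ε / 3
    rw [sub_self, abs_zero]; positivity
  · rintro z ⟨hz, hz2⟩
    have h1 := hclose z hz
    have h2 := hclose z0 hz0
    have h3 : |un n z - un n z0| < ε / 3 := hz2
    rw [abs_le] at *
    rw [abs_lt] at h3
    constructor <;> linarith [h1.1, h1.2, h2.1, h2.2, h3.1, h3.2]

theorem null_compl {Z : Type*} [TopologicalSpace Z] [MeasurableSpace Z] [BorelSpace Z]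
    (ν : Measure Z) [ν.Regular] : ν {x | ∀ U ∈ 𝓝 x, ν U ≠ 0}ᶜ = 0 := by
  have hopen : IsOpen {x | ∀ U ∈ 𝓝 x, ν U ≠ 0}ᶜ := by
    rw [isOpen_iff_mem_nhds]
    intro x hx
    simp only [mem_compl_iff, mem_ofPred_eq, not_forall, not_not] at hx
    obtain ⟨U, hU, hU0⟩ := hx
    rw [← eventually_mem_nhds_iff] at hU
    filter_upwards [hU] with y hy h
    exact h U hy hU0
  rw [hopen.measure_eq_iSup_isCompact]
  simp only [ENNReal.iSup_eq_zero]
  intro K hK hKc
  refine hKc.measure_zero_of_nhdsWithin fun x hx => ?_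
  have h1 := hK hx
  simp only [mem_compl_iff, mem_ofPred_eq, not_forall, not_not] at h1
  obtain ⟨U, hU, hU0⟩ := h1
  exact ⟨U, mem_nhdsWithin_of_mem_nhds hU, hU0⟩

variable {V : Type*} [AddCommGroup V] [Module ℝ V] [TopologicalSpace V]

theorem aff_sum {X : Set V} (hconv : Convex ℝ X) (u : X → ℝ) (hu : IsAff u) {ι : Type}
    [Fintype ι] (w : ι → ℝ) (z : ι → X) (hw : ∀ i, 0 ≤ w i) (hw1 : ∑ i, w i = 1) (p : X)
    (hp : (p : V) = ∑ i, w i • (z i : V)) : u p = ∑ i, w i * u (z i) := by
  classical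
  let v : V → ℝ := fun x => if h : x ∈ X then u ⟨x, h⟩ else 0
  have hv : ∀ x : X, v x = u x := fun x => by simp [v]
  have key : ∀ ⦃x⦄, x ∈ X → ∀ ⦃y⦄, y ∈ X → ∀ ⦃a b : ℝ⦄, 0 ≤ a → 0 ≤ b → a + b = 1 →
      v (a • x + b • y) = a • v x + b • v y := by
    intro x hx y hy a b ha hb hab
    have hz := hconv hx hy ha hb hab
    have hb' : b = 1 - a := by linarith
    have h1 := hu ⟨x, hx⟩ ⟨y, hy⟩ ⟨_, hz⟩ a ha (by linarith)
      (by show a • x + b • y = a • x + (1 - a) • y; rw [hb'])
    rw [hv ⟨x, hx⟩, hv ⟨y, hy⟩, hv ⟨_, hz⟩, h1, hb']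
  have h1 : ConvexOn ℝ X v := ⟨hconv, fun x hx y hy a b ha hb hab => (key hx hy ha hb hab).le⟩
  have h2 : ConcaveOn ℝ X v := ⟨hconv, fun x hx y hy a b ha hb hab => (key hx hy ha hb hab).ge⟩
  have h3 := h1.map_sum_le (t := Finset.univ) (w := w) (p := fun i => (z i : V))
    (fun i _ => hw i) hw1 (fun i _ => (z i).2)
  have h4 := h2.le_map_sum (t := Finset.univ) (w := w) (p := fun i => (z i : V))
    (fun i _ => hw i) hw1 (fun i _ => (z i).2)
  rw [← hp] at h3 h4
  simp only [hv, smul_eq_mul] at h3 h4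
  exact le_antisymm h3 h4

section LC

variable [IsTopologicalAddGroup V] [ContinuousSMul ℝ V] [LocallyConvexSpace ℝ V] [T2Space V]

omit [T2Space V] in
theorem closed_convex_nhd {x : V} {t : Set V} (ht : t ∈ 𝓝 x) :
    ∃ N, N ∈ 𝓝 x ∧ IsClosed N ∧ Convex ℝ N ∧ N ⊆ t := by
  obtain ⟨F, hF, hFc, hFt⟩ := exists_mem_nhds_isClosed_subset ht
  obtain ⟨C, ⟨hC, hCc⟩, hCF⟩ := (LocallyConvexSpace.convex_basis (𝕜 := ℝ) x).mem_iff.1 hF
  exact ⟨closure C, mem_of_superset hC subset_closure, isClosed_closure, hCc.closure,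
    (closure_minimal hCF hFc).trans hFt⟩

variable {X : Set V} [MeasurableSpace X] [BorelSpace X]

theorem local_small [Nonempty X] (hX : IsCompact X) (hconv : Convex ℝ X) (u : X → ℝ)
    (hu : IsAff u) (M : ℝ) (hM : ∀ x, |u x| ≤ M) (un : ℕ → X → ℝ) (hc : ∀ n, Continuous (un n))
    (hl : ∀ z, Tendsto (fun n => un n z) atTop (𝓝 (u z))) (ν : Measure X) [IsFiniteMeasure ν]
    [ν.Regular] (A : Set X) (hA : MeasurableSet A) (hνA : ν A ≠ 0) (ε : ℝ) (hε : 0 < ε) :
    ∃ (ι : Type) (_ : Fintype ι) (w : ι → ℝ) (B : ι → Set X), (∀ i, 0 ≤ w i) ∧ ∑ i, w i = 1 ∧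
      (∀ i, MeasurableSet (B i) ∧ B i ⊆ A ∧ ν (B i) ≠ 0) ∧
      ∑ i, w i * ((∫ x in B i, u x ∂ν - phi u (ν.restrict (B i))) / ν.real (B i)) ≤ ε := by
  have : CompactSpace X := isCompact_iff_compactSpace.1 hX
  have hmeas : Measurable u := measurable_of_tendsto_metrizable (fun n => (hc n).measurable)
    (tendsto_pi_nhds.2 hl)
  have hreg : (ν.restrict A).Regular := Measure.Regular.restrict_of_measure_ne_top
    (measure_ne_top _ _)
  set ν' := ν.restrict A with hν'
  set S : Set X := {x | ∀ U ∈ 𝓝 x, ν' U ≠ 0} with hS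
  have hS0 : ν' Sᶜ = 0 := null_compl ν'
  have hSne : S.Nonempty := by
    by_contra h
    rw [not_nonempty_iff_eq_empty] at h
    rw [h, compl_empty, hν', Measure.restrict_apply_univ] at hS0
    exact hνA hS0
  let T : Set V := (fun x : X => (x : V)) '' S
  let Y : Set V := closure (convexHull ℝ T)
  have hYX : Y ⊆ X := by
    refine closure_minimal (convexHull_min ?_ hconv) hX.isClosed
    rintro _ ⟨x, _, rfl⟩
    exact x.2
  have hYconv : Convex ℝ Y := (convex_convexHull ℝ T).closure
  have hYclosed : IsClosed Y := isClosed_closure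
  have hYcomp : IsCompact Y := hX.of_isClosed_subset hYclosed hYX
  have hSY : ∀ x ∈ S, (x : V) ∈ Y := fun x hx =>
    subset_closure (subset_convexHull ℝ T ⟨x, hx, rfl⟩)
  have : CompactSpace Y := isCompact_iff_compactSpace.1 hYcomp
  have : Nonempty Y := by
    obtain ⟨x, hx⟩ := hSne
    exact ⟨⟨x, hSY x hx⟩⟩
  obtain ⟨U, hU, z0, hz0, hUz⟩ := baire_pt (Z := Y) (fun y => u (inclusion hYX y))
    (fun n y => un n (inclusion hYX y)) (fun n => (hc n).comp (continuous_inclusion hYX))
    (fun y => hl _) (ε / 2) (by positivity)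
  obtain ⟨W, hW, hWU⟩ := isOpen_induced_iff.1 hU
  have hz0W : (z0 : V) ∈ W := by
    have : z0 ∈ Subtype.val ⁻¹' W := by rw [hWU]; exact hz0
    exact this
  have hWu : ∀ p : X, (p : V) ∈ W → (p : V) ∈ Y → |u p - u (inclusion hYX z0)| ≤ ε / 2 := by
    intro p hpW hpY
    have h1 : (⟨(p : V), hpY⟩ : Y) ∈ U := by
      rw [← hWU]; exact hpW
    exact hUz _ h1
  obtain ⟨y1, hy1W, hy1⟩ := mem_closure_iff.1 z0.2 W hW hz0W
  obtain ⟨ι, _, w, s, hw0, hw1, hs, hsum⟩ := mem_convexHull_iff_exists_fintype.1 hy1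
  choose s' hs'S hs' using hs
  let F : (ι → V) → V := fun z => ∑ i, w i • z i
  have hF : Continuous F := continuous_finsetSum _ fun i _ => (continuous_apply i).const_smul (w i)
  have h1 : F ⁻¹' W ∈ 𝓝 s := by
    refine hF.continuousAt (hW.mem_nhds ?_)
    show F s ∈ W
    rw [show F s = y1 from hsum]; exact hy1W
  rw [nhds_pi, Filter.mem_pi'] at h1
  obtain ⟨I, t, ht, htW⟩ := h1
  choose N hN hNc hNconv hNt using fun i => closed_convex_nhd (ht i)
  let K : ι → Set V := fun i => N i ∩ Y
  have hKclosed : ∀ i, IsClosed (K i) := fun i => (hNc i).inter hYclosed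
  have hKcomp : ∀ i, IsCompact (K i) := fun i => hYcomp.inter_left (hNc i)
  have hKconv : ∀ i, Convex ℝ (K i) := fun i => (hNconv i).inter hYconv
  have hKm : ∀ i, MeasurableSet {x : X | (x : V) ∈ K i} := fun i =>
    ((hKclosed i).preimage continuous_subtype_val).measurableSet
  let B : ι → Set X := fun i => {x : X | (x : V) ∈ K i} ∩ A
  have hBm : ∀ i, MeasurableSet (B i) := fun i => (hKm i).inter hA
  have hB0 : ∀ i, ν (B i) ≠ 0 := by
    intro i h0
    have h2 : ν' {x : X | (x : V) ∈ K i} = 0 := by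
      rw [hν', Measure.restrict_apply (hKm i)]; exact h0
    have h3 : {x : X | (x : V) ∈ N i} ∈ 𝓝 (s' i) := by
      have : Continuous (fun x : X => (x : V)) := continuous_subtype_val
      refine this.continuousAt ?_
      show N i ∈ 𝓝 (s' i : V)
      have h5 : (s' i : V) = s i := hs' i
      rw [h5]
      exact hN i
    apply hs'S i _ h3
    refine measure_mono_null (t := {x : X | (x : V) ∈ K i} ∪ Sᶜ) ?_ (measure_union_null h2 hS0)
    intro x hx
    by_cases hxS : x ∈ S
    · exact Or.inl ⟨hx, hSY x hxS⟩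
    · exact Or.inr hxS
  have hctr : ∀ i, ((ctr (ν.restrict (B i)) : X) : V) ∈ K i := by
    intro i
    have h0 : ν.restrict (B i) ≠ 0 := by
      intro h
      apply hB0 i
      rw [← Measure.restrict_apply_univ, h]; rfl
    obtain ⟨x, hx, hxb⟩ := exists_bary hX (ν.restrict (B i)) h0 (hKcomp i) (hKconv i)
      (by
        filter_upwards [ae_restrict_mem (hBm i)] with z hz
        exact hz.1)
    have := bary_unique _ h0 (ctr_spec hX hconv (ν.restrict (B i))) hxb
    rw [this]; exact hx
  have hint : ∀ i, IntegrableOn u (B i) ν := fun i =>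
    (Integrable.of_bound hmeas.aestronglyMeasurable M
      (Eventually.of_forall fun x => by rw [Real.norm_eq_abs]; exact hM x)).integrableOn
  choose x hxB hx using fun i => exists_setAverage_le (hB0 i) (measure_ne_top ν _) (hint i)
  have hpt : ∀ z : ι → X, (∀ i, (z i : V) ∈ K i) →
      |∑ i, w i * u (z i) - u (inclusion hYX z0)| ≤ ε / 2 := by
    intro z hz
    have hzY : ∑ i, w i • (z i : V) ∈ Y :=
      hYconv.sum_mem (fun i _ => hw0 i) hw1 (fun i _ => (hz i).2)
    have hzW : ∑ i, w i • (z i : V) ∈ W := by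
      have : (fun i => (z i : V)) ∈ (I : Set ι).pi t := fun i _ => hNt i (hz i).1
      exact htW this
    rw [← aff_sum hconv u hu w z hw0 hw1 ⟨_, hYX hzY⟩ rfl]
    exact hWu _ hzW hzY
  refine ⟨ι, inferInstance, w, B, hw0, hw1, fun i => ⟨hBm i, inter_subset_right, hB0 i⟩, ?_⟩
  have hterm : ∀ i, w i * ((∫ x in B i, u x ∂ν - phi u (ν.restrict (B i))) / ν.real (B i)) ≤
      w i * u (x i) - w i * u (ctr (ν.restrict (B i))) := by
    intro i
    rw [← mul_sub]
    refine mul_le_mul_of_nonneg_left ?_ (hw0 i)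
    have hpos : 0 < ν.real (B i) := by
      rw [Measure.real, ENNReal.toReal_pos_iff]
      exact ⟨pos_iff_ne_zero.2 (hB0 i), measure_lt_top _ _⟩
    have h2 := hx i
    rw [setAverage_eq, smul_eq_mul] at h2
    rw [sub_div, phi, measureReal_restrict_apply_univ]
    have h3 : ν.real (B i) * u (ctr (ν.restrict (B i))) / ν.real (B i) =
        u (ctr (ν.restrict (B i))) := by field_simp
    rw [h3, div_eq_inv_mul]
    linarith
  refine (Finset.sum_le_sum fun i _ => hterm i).trans ?_
  rw [Finset.sum_sub_distrib]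
  have h2 := hpt x (fun i => (hxB i).1)
  have h3 := hpt (fun i => ctr (ν.restrict (B i))) hctr
  rw [abs_le] at h2 h3
  linarith [h2.2, h3.1]

theorem bary_le [Nonempty X] (hX : IsCompact X) (hconv : Convex ℝ X) (u : X → ℝ)
    (hu : IsAff u) (M : ℝ) (hM : ∀ x, |u x| ≤ M) (un : ℕ → X → ℝ) (hc : ∀ n, Continuous (un n))
    (hl : ∀ z, Tendsto (fun n => un n z) atTop (𝓝 (u z))) (ν : Measure X) [IsFiniteMeasure ν]
    [ν.Regular] : ∫ x, u x ∂ν ≤ phi u ν := by
  have : CompactSpace X := isCompact_iff_compactSpace.1 hX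
  have hmeas : Measurable u := measurable_of_tendsto_metrizable (fun n => (hc n).measurable)
    (tendsto_pi_nhds.2 hl)
  have hint : Integrable u ν := Integrable.of_bound hmeas.aestronglyMeasurable M
      (Eventually.of_forall fun x => by rw [Real.norm_eq_abs]; exact hM x)
  have key : ∀ ε > 0, ∫ x, u x ∂ν - phi u ν ≤ ε * ν.real univ := by
    intro ε hε
    by_contra hcon
    push Not at hcon
    let d : Set X → ℝ := fun B => ∫ x in B, u x ∂ν - phi u (ν.restrict B) - ε * ν.real B
    have hadd : ∀ A B, MeasurableSet A → MeasurableSet B → Disjoint A B →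
        d (A ∪ B) = d A + d B := by
      intro A B hA hB hAB
      simp only [d]
      rw [setIntegral_union hAB hB hint.integrableOn hint.integrableOn,
        Measure.restrict_union hAB hB, phi_add hX hconv u hu, measureReal_union hAB hB]
      ring
    have hbd : ∀ A, MeasurableSet A → |d A| ≤ (M + M + ε) * ν.real A := by
      intro A hA
      simp only [d]
      have h1 : |∫ x in A, u x ∂ν| ≤ M * ν.real A := by
        have := norm_setIntegral_le_of_norm_le_const (μ := ν) (s := A) (f := u) (C := M)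
          (measure_lt_top _ _) (fun x _ => by rw [Real.norm_eq_abs]; exact hM x)
        simpa using this
      have h2 : |phi u (ν.restrict A)| ≤ M * ν.real A := by
        rw [phi, measureReal_restrict_apply_univ, abs_mul, abs_of_nonneg measureReal_nonneg,
          mul_comm]
        exact mul_le_mul_of_nonneg_right (hM _) measureReal_nonneg
      have h3 : 0 ≤ ε * ν.real A := mul_nonneg hε.le measureReal_nonneg
      rw [abs_le] at *
      constructor
      · linarith [h1.1, h2.2]
      · linarith [h1.2, h2.1]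
    have hpos : 0 < d univ := by
      simp only [d, Measure.restrict_univ]
      linarith
    obtain ⟨A, hA, hA0, hAd⟩ := exists_hahn ν d (M + M + ε) hadd hbd hpos
    obtain ⟨ι, _, w, B, hw0, hw1, hB, hsum⟩ := local_small hX hconv u hu M hM un hc hl ν A hA hA0
      (ε / 2) (by positivity)
    have h1 : ∀ i, w i * ε ≤
        w i * ((∫ x in B i, u x ∂ν - phi u (ν.restrict (B i))) / ν.real (B i)) := by
      intro i
      refine mul_le_mul_of_nonneg_left ?_ (hw0 i)
      have hpos : 0 < ν.real (B i) := by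
        rw [Measure.real, ENNReal.toReal_pos_iff]
        exact ⟨pos_iff_ne_zero.2 (hB i).2.2, measure_lt_top _ _⟩
      rw [le_div_iff₀ hpos]
      have h2 := hAd (B i) (hB i).1 (hB i).2.1
      simp only [d] at h2
      linarith
    have h2 := Finset.sum_le_sum fun i (_ : i ∈ Finset.univ) => h1 i
    rw [← Finset.sum_mul, hw1] at h2
    linarith
  by_contra hcon
  push Not at hcon
  have h0 : 0 ≤ ν.real univ := measureReal_nonneg
  set δ := ∫ x, u x ∂ν - phi u ν with hδ
  have hδ0 : 0 < δ := by rw [hδ]; linarith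
  have h1 := key (δ / (2 * (ν.real univ + 1))) (by positivity)
  have h2 : δ / (2 * (ν.real univ + 1)) * ν.real univ ≤ δ / 2 := by
    rw [div_mul_eq_mul_div, div_le_div_iff₀ (by positivity) (by positivity)]
    nlinarith
  linarith

/-- **Barycentric formula** for affine functions of the first Baire class. -/
theorem bary_formula [Nonempty X] (hX : IsCompact X) (hconv : Convex ℝ X) (u : X → ℝ)
    (hu : IsAff u) (M : ℝ) (hM : ∀ x, |u x| ≤ M) (un : ℕ → X → ℝ) (hc : ∀ n, Continuous (un n))
    (hl : ∀ z, Tendsto (fun n => un n z) atTop (𝓝 (u z))) (ν : Measure X) [IsFiniteMeasure ν]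
    [ν.Regular] : ∫ x, u x ∂ν = phi u ν := by
  refine le_antisymm (bary_le hX hconv u hu M hM un hc hl ν) ?_
  have h1 := bary_le hX hconv (fun x => - u x)
    (by
      intro x y z t ht0 ht1 hz
      show - u z = t • - u x + (1 - t) • - u y
      rw [hu x y z t ht0 ht1 hz]
      simp only [smul_eq_mul]
      ring) M (fun x => by rw [abs_neg]; exact hM x) (fun n x => - un n x)
    (fun n => (hc n).neg) (fun z => (hl z).neg) ν
  rw [integral_neg] at h1
  simp only [phi] at h1 ⊢
  linarith

end LC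

end Pool.Agent.Q196.AB
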