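import Pool.Agent.Q196.AB.Star

set_option autoImplicit false

/-! Affine maps of the first Baire class into spaces with the approximation property are pointwise
limits of continuous affine maps. -/

namespace Pool.Agent.Q196.AB

open MeasureTheory Set Filter Topology
open scoped Pointwise

variable {V : Type*} [AddCommGroup V] [Module ℝ V] [TopologicalSpace V]
variable {X : Set V} {E : Type*} [NormedAddCommGroup E] [NormedSpace ℝ E]

/-- The continuous affine maps. -/
def affSub (X : Set V) (E : Type*) [NormedAddCommGroup E] [NormedSpace ℝ E] :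
    Submodule ℝ C(X, E) where
  carrier := {g | IsAff (g : X → E)}
  add_mem' := by
    intro g h hg hh x y z t ht0 ht1 hz
    show g z + h z = t • (g x + h x) + (1 - t) • (g y + h y)
    rw [hg x y z t ht0 ht1 hz, hh x y z t ht0 ht1 hz, smul_add, smul_add]
    abel
  zero_mem' := by
    intro x y z t _ _ _
    show (0 : E) = t • (0 : E) + (1 - t) • (0 : E)
    simp
  smul_mem' := by
    intro c g hg x y z t ht0 ht1 hz
    show c • g z = t • (c • g x) + (1 - t) • (c • g y)
    rw [hg x y z t ht0 ht1 hz, smul_add, smul_comm c t, smul_comm c (1 - t)]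

section LC

variable [IsTopologicalAddGroup V] [ContinuousSMul ℝ V] [LocallyConvexSpace ℝ V] [T2Space V]
variable [CompactSpace X] [Nonempty X]

theorem approx1 (hAP : AP ℝ E) (hconv : Convex ℝ X) (f : X → E) (hf : IsAff f) (M : ℝ)
    (fn : ℕ → C(X, E)) (hM : ∀ n x, ‖fn n x‖ ≤ M)
    (hl : ∀ z, Tendsto (fun n => fn n z) atTop (𝓝 (f z))) (ε : ℝ) (hε : 0 < ε) :
    ∃ g ∈ convexHull ℝ (range fn), ∃ h ∈ affSub X E, ‖g - h‖ < ε := by
  by_contra hcon
  push Not at hcon
  let s : Set C(X, E) := (affSub X E : Set C(X, E)) + Metric.ball (0 : C(X, E)) ε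
  have hs1 : Convex ℝ s := (affSub X E).convex.add (convex_ball 0 ε)
  have hs2 : IsOpen s := Metric.isOpen_ball.add_left
  have hdisj : Disjoint s (convexHull ℝ (range fn)) := by
    rw [Set.disjoint_left]
    rintro _ ⟨h, hh, b, hb, rfl⟩ hg
    have := hcon (h + b) hg h hh
    rw [add_sub_cancel_left] at this
    rw [mem_ball_zero_iff] at hb
    linarith
  obtain ⟨μ, c, h1, h2⟩ := geometric_hahn_banach_open hs1 hs2 (convex_convexHull ℝ (range fn))
    hdisj
  have h3 : ∀ h ∈ affSub X E, μ h < c := by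
    intro h hh
    have := h1 (h + 0) ⟨h, hh, 0, Metric.mem_ball_self hε, rfl⟩
    rwa [add_zero] at this
  have hc : 0 < c := by
    have := h3 0 (affSub X E).zero_mem
    rwa [map_zero] at this
  have hμ : ∀ g : C(X, E), IsAff (g : X → E) → μ g = 0 := by
    intro g hg
    by_contra hne
    have h4 := h3 ((c / μ g) • g) ((affSub X E).smul_mem _ hg)
    rw [map_smul, smul_eq_mul, div_mul_cancel₀ _ hne] at h4
    exact lt_irrefl _ h4
  obtain ⟨n, hn⟩ := star hAP hconv f hf M fn hM hl μ hμ c hc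
  have h5 := h2 (fn n) (subset_convexHull ℝ _ ⟨n, rfl⟩)
  rw [abs_lt] at hn
  linarith [hn.2]

theorem approx2 (hAP : AP ℝ E) (hconv : Convex ℝ X) (f : X → E) (hf : IsAff f)
    (fn : ℕ → C(X, E)) (hM : ∀ n x, ‖fn n x‖ ≤ 1)
    (hl : ∀ z, Tendsto (fun n => fn n z) atTop (𝓝 (f z))) (ε : ℝ) (hε : 0 < ε) :
    ∃ g ∈ convexHull ℝ (range fn), ∃ h ∈ affSub X E, (∀ x, ‖h x‖ ≤ 1) ∧ ‖g - h‖ < ε := by
  by_contra hcon
  push Not at hcon
  let B : Set C(X, E) := (affSub X E : Set C(X, E)) ∩ Metric.closedBall 0 1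
  have hB : ∀ h ∈ B, h ∈ affSub X E ∧ ∀ x, ‖h x‖ ≤ 1 := by
    rintro h ⟨hh, hh1⟩
    refine ⟨hh, fun x => (h.norm_coe_le_norm x).trans ?_⟩
    rwa [mem_closedBall_zero_iff] at hh1
  let s : Set C(X, E) := B + Metric.ball (0 : C(X, E)) ε
  have hs1 : Convex ℝ s :=
    ((affSub X E).convex.inter (convex_closedBall 0 1)).add (convex_ball 0 ε)
  have hs2 : IsOpen s := Metric.isOpen_ball.add_left
  have hdisj : Disjoint s (convexHull ℝ (range fn)) := by
    rw [Set.disjoint_left]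
    rintro _ ⟨h, hh, b, hb, rfl⟩ hg
    have := hcon (h + b) hg h (hB h hh).1 (hB h hh).2
    rw [add_sub_cancel_left] at this
    rw [mem_ball_zero_iff] at hb
    linarith
  obtain ⟨μ, c, h1, h2⟩ := geometric_hahn_banach_open hs1 hs2 (convex_convexHull ℝ (range fn))
    hdisj
  have h0B : (0 : C(X, E)) ∈ B := ⟨(affSub X E).zero_mem, by simp⟩
  have hfc : ∀ n, c ≤ μ (fn n) := fun n => h2 (fn n) (subset_convexHull ℝ _ ⟨n, rfl⟩)
  have hc : 0 < c := by
    have := h1 (0 + 0) ⟨0, h0B, 0, Metric.mem_ball_self hε, rfl⟩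
    rwa [add_zero, map_zero] at this
  -- a vector in the ball on which μ is positive
  obtain ⟨b, hb, hμb⟩ : ∃ b ∈ Metric.ball (0 : C(X, E)) ε, 0 < μ b := by
    have h3 : 0 < μ (fn 0) := hc.trans_le (hfc 0)
    have h4 : 0 < ‖fn 0‖ := by
      rw [norm_pos_iff]
      rintro h
      rw [h, map_zero] at h3
      exact lt_irrefl _ h3
    refine ⟨(ε / (2 * ‖fn 0‖)) • fn 0, ?_, ?_⟩
    · rw [mem_ball_zero_iff, norm_smul, Real.norm_eq_abs, abs_of_pos (by positivity)]
      have : ε / (2 * ‖fn 0‖) * ‖fn 0‖ = ε / 2 := by field_simp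
      rw [this]; linarith
    · rw [map_smul, smul_eq_mul]
      positivity
  have h3 : ∀ h ∈ B, μ h ≤ c - μ b := by
    intro h hh
    have := h1 (h + b) ⟨h, hh, b, hb, rfl⟩
    rw [map_add] at this
    linarith
  have hcb : 0 ≤ c - μ b := by
    have := h3 0 h0B
    rwa [map_zero] at this
  obtain ⟨ν, hν1, hν2⟩ := exists_extension_norm_eq (𝕜 := ℝ) (affSub X E)
    (μ.comp (affSub X E).subtypeL)
  have hνn : ‖ν‖ ≤ c - μ b := by
    rw [hν2]
    refine ContinuousLinearMap.opNorm_le_bound _ hcb ?_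
    intro h
    have key : ∀ h : affSub X E, μ (h : C(X, E)) ≤ (c - μ b) * ‖h‖ := by
      intro h
      by_cases h0 : ‖h‖ = 0
      · have : h = 0 := norm_eq_zero.1 h0
        rw [this]; simp
      · have hpos : 0 < ‖h‖ := lt_of_le_of_ne (norm_nonneg _) (Ne.symm h0)
        have h4 := h3 (‖h‖⁻¹ • (h : C(X, E))) ⟨(affSub X E).smul_mem _ h.2, by
          rw [mem_closedBall_zero_iff, norm_smul, norm_inv, norm_norm]
          show ‖h‖⁻¹ * ‖h‖ ≤ 1
          rw [inv_mul_cancel₀ h0]⟩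
        rw [map_smul, smul_eq_mul, inv_mul_le_iff₀ hpos] at h4
        linarith [mul_comm ‖h‖ (c - μ b)]
    rw [Real.norm_eq_abs, abs_le]
    constructor
    · have h5 := key (-h)
      have h6 : μ ((-h : affSub X E) : C(X, E)) = - μ (h : C(X, E)) := by
        rw [Submodule.coe_neg, map_neg]
      rw [h6, norm_neg] at h5
      show - _ ≤ μ (h : C(X, E))
      linarith
    · exact key h
  have hμν : ∀ g : C(X, E), IsAff (g : X → E) → (μ - ν) g = 0 := by
    intro g hg
    have := hν1 ⟨g, hg⟩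
    show μ g - ν g = 0
    have h4 : ν g = μ g := this
    rw [h4, sub_self]
  obtain ⟨n, hn⟩ := star hAP hconv f hf 1 fn hM hl (μ - ν) hμν (μ b) hμb
  have h5 := hfc n
  have h6 : ν (fn n) ≤ c - μ b := by
    refine (le_abs_self _).trans ?_
    rw [← Real.norm_eq_abs]
    refine (ν.le_opNorm _).trans ?_
    have h7 : ‖fn n‖ ≤ 1 := by
      rw [ContinuousMap.norm_le _ zero_le_one]; exact hM n
    calc ‖ν‖ * ‖fn n‖ ≤ ‖ν‖ * 1 := mul_le_mul_of_nonneg_left h7 (norm_nonneg _)
      _ ≤ c - μ b := by rw [mul_one]; exact hνn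
  rw [abs_lt] at hn
  have h8 : (μ - ν) (fn n) = μ (fn n) - ν (fn n) := rfl
  rw [h8] at hn
  linarith [hn.2]

/-- From approximations of convex combinations to a sequence of continuous affine maps. -/
theorem conclude (P : C(X, E) → Prop) (f : X → E) (fn : ℕ → C(X, E))
    (hl : ∀ z, Tendsto (fun n => fn n z) atTop (𝓝 (f z)))
    (h : ∀ N : ℕ, ∀ ε : ℝ, 0 < ε → ∃ g ∈ convexHull ℝ (range fun n => fn (n + N)),
      ∃ h ∈ affSub X E, P h ∧ ‖g - h‖ < ε) :
    ∃ hn : ℕ → C(X, E), (∀ n, hn n ∈ affSub X E ∧ P (hn n)) ∧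
      ∀ z, Tendsto (fun n => hn n z) atTop (𝓝 (f z)) := by
  choose g hg hn hh hP hgh using fun N : ℕ => h N (1 / ((N : ℝ) + 1)) (by positivity)
  refine ⟨hn, fun n => ⟨hh n, hP n⟩, fun z => ?_⟩
  have h1 : Tendsto (fun n => g n z) atTop (𝓝 (f z)) := by
    rw [Metric.tendsto_atTop]
    intro ε hε
    obtain ⟨N, hN⟩ := Metric.tendsto_atTop.1 (hl z) ε hε
    refine ⟨N, fun n hn => ?_⟩
    have h2 : convexHull ℝ (range fun k => fn (k + n)) ⊆
        (fun q : C(X, E) => q z) ⁻¹' Metric.ball (f z) ε := by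
      refine convexHull_min ?_ ?_
      · rintro _ ⟨k, rfl⟩
        exact hN _ (le_add_left hn)
      · intro p hp q hq a b ha hb hab
        show a • p z + b • q z ∈ Metric.ball (f z) ε
        exact (convex_ball (f z) ε) hp hq ha hb hab
    exact h2 (hg n)
  have h3 : Tendsto (fun n => g n z - hn n z) atTop (𝓝 0) := by
    rw [tendsto_zero_iff_norm_tendsto_zero]
    refine squeeze_zero (fun _ => norm_nonneg _) (fun n => ?_) tendsto_one_div_add_atTop_nhds_zero_nat
    exact ((g n - hn n).norm_coe_le_norm z).trans (hgh n).le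
  have h4 := h1.sub h3
  rw [sub_zero] at h4
  refine h4.congr fun n => ?_
  abel

end LC

section Bdd

variable [IsTopologicalAddGroup V] [ContinuousSMul ℝ V] [T2Space V]

omit [T2Space V] in
theorem bounded_of_aff [T2Space V] [CompactSpace X] [Nonempty X] (hconv : Convex ℝ X) (f : X → E)
    (hf : IsAff f) (fn : ℕ → X → E) (hc : ∀ n, Continuous (fn n))
    (hl : ∀ z, Tendsto (fun n => fn n z) atTop (𝓝 (f z))) : ∃ M, ∀ x, ‖f x‖ ≤ M := by
  let A : ℕ → Set X := fun N => ⋂ n, {x | ‖fn n x‖ ≤ N}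
  have hA : ∀ N, IsClosed (A N) := fun N => isClosed_iInter fun n =>
    isClosed_le (hc n).norm continuous_const
  have hU : ⋃ N, A N = univ := by
    rw [eq_univ_iff_forall]
    intro x
    obtain ⟨C, hC⟩ := (hl x).norm.bddAbove_range
    obtain ⟨N, hN⟩ := exists_nat_ge C
    rw [mem_iUnion]
    refine ⟨N, ?_⟩
    simp only [A, mem_iInter]
    intro n
    exact (hC ⟨n, rfl⟩).trans hN
  obtain ⟨N, x0, hx0⟩ := nonempty_interior_of_iUnion_of_closed hA hU
  have hAN : ∀ x ∈ interior (A N), ‖f x‖ ≤ N := by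
    intro x hx
    have h1 := interior_subset hx
    simp only [A, mem_iInter] at h1
    exact le_of_tendsto (hl x).norm (Eventually.of_forall h1)
  obtain ⟨W, hW, hWA⟩ := isOpen_induced_iff.1 (isOpen_interior (s := A N))
  have hx0W : (x0 : V) ∈ W := by
    have : x0 ∈ Subtype.val ⁻¹' W := by rw [hWA]; exact hx0
    exact this
  let F : ℝ × X → V := fun p => (1 - p.1) • (x0 : V) + p.1 • (p.2 : V)
  have hF : Continuous F := by fun_prop
  obtain ⟨u, v, hu, hv, h0u, huv, hsub⟩ := generalized_tube_lemma (isCompact_singleton (x := (0 : ℝ)))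
    (isCompact_univ (X := X)) (hW.preimage hF) (by
      rintro ⟨t, x⟩ ⟨ht, _⟩
      have ht' : t = 0 := ht
      show F (t, x) ∈ W
      simp only [F, ht', sub_zero, one_smul, zero_smul, add_zero]
      exact hx0W)
  have h0u' : u ∈ 𝓝 (0 : ℝ) := hu.mem_nhds (h0u rfl)
  obtain ⟨r, hr, hru⟩ := Metric.mem_nhds_iff.1 h0u'
  set t := min (r / 2) 1 with ht
  have ht0 : 0 < t := lt_min (by positivity) one_pos
  have ht1 : t ≤ 1 := min_le_right _ _
  have htu : t ∈ u := by
    apply hru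
    rw [mem_ball_zero_iff, Real.norm_eq_abs, abs_of_pos ht0]
    exact (min_le_left _ _).trans_lt (by linarith)
  refine ⟨((N : ℝ) + ‖f x0‖) / t, fun x => ?_⟩
  have hz : t • (x : V) + (1 - t) • (x0 : V) ∈ X :=
    hconv x.2 x0.2 ht0.le (by linarith) (by ring)
  have h1 : (⟨_, hz⟩ : X) ∈ interior (A N) := by
    rw [← hWA]
    have h2 : F (t, x) ∈ W := hsub ⟨htu, huv (mem_univ x)⟩
    show t • (x : V) + (1 - t) • (x0 : V) ∈ W
    rw [add_comm]
    exact h2
  have h2 := hAN _ h1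
  have h3 := hf x x0 ⟨_, hz⟩ t ht0.le ht1 rfl
  have h4 : t • f x = f ⟨_, hz⟩ - (1 - t) • f x0 := by rw [h3]; abel
  have h5 : t * ‖f x‖ ≤ N + ‖f x0‖ := by
    calc t * ‖f x‖ = ‖t • f x‖ := by rw [norm_smul, Real.norm_eq_abs, abs_of_pos ht0]
      _ ≤ ‖f ⟨_, hz⟩‖ + ‖(1 - t) • f x0‖ := by rw [h4]; exact norm_sub_le _ _
      _ ≤ N + ‖f x0‖ := by
          refine add_le_add h2 ?_
          rw [norm_smul, Real.norm_eq_abs, abs_of_nonneg (by linarith)]
          have := norm_nonneg (f x0)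
          nlinarith
  rw [le_div_iff₀ ht0]
  linarith [mul_comm t ‖f x‖]

end Bdd

/-- The radial retraction on the ball of radius `M`. -/
noncomputable def retr (M : ℝ) (y : E) : E := (M / max M ‖y‖) • y

theorem retr_cont {M : ℝ} (hM : 0 < M) : Continuous (retr (E := E) M) := by
  unfold retr
  refine Continuous.smul (continuous_const.div (continuous_const.max continuous_norm) ?_)
    continuous_id
  intro y
  exact (lt_max_of_lt_left hM).ne'

theorem retr_norm {M : ℝ} (hM : 0 < M) (y : E) : ‖retr M y‖ ≤ M := by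
  have h1 : 0 < max M ‖y‖ := lt_max_of_lt_left hM
  rw [retr, norm_smul, Real.norm_eq_abs, abs_of_pos (by positivity), div_mul_eq_mul_div,
    div_le_iff₀ h1]
  exact mul_le_mul_of_nonneg_left (le_max_right _ _) hM.le

theorem retr_self {M : ℝ} (hM : 0 < M) {y : E} (hy : ‖y‖ ≤ M) : retr M y = y := by
  rw [retr, max_eq_left hy, div_self hM.ne', one_smul]

section Fin

variable [IsTopologicalAddGroup V] [ContinuousSMul ℝ V] [LocallyConvexSpace ℝ V] [T2Space V]

theorem main1 (hAP : AP ℝ E) (hX : IsCompact X) (hconv : Convex ℝ X) (f : X → E) (hf : IsAff f)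
    (fn : ℕ → X → E) (hc : ∀ n, Continuous (fn n))
    (hl : ∀ z, Tendsto (fun n => fn n z) atTop (𝓝 (f z))) :
    ∃ hn : ℕ → X → E, (∀ n, Continuous (hn n) ∧ IsAff (hn n)) ∧
      ∀ z, Tendsto (fun n => hn n z) atTop (𝓝 (f z)) := by
  rcases isEmpty_or_nonempty X with hemp | hne
  · exact ⟨fun _ => f, fun _ => ⟨continuous_of_const fun x => (hemp.false x).elim, hf⟩,
      fun z => tendsto_const_nhds⟩
  · have : CompactSpace X := isCompact_iff_compactSpace.1 hX
    obtain ⟨M, hM⟩ := bounded_of_aff hconv f hf fn hc hl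
    set M' := max M 1 with hM'
    have hM'0 : 0 < M' := lt_max_of_lt_right one_pos
    let gn : ℕ → C(X, E) := fun n => ⟨fun x => retr M' (fn n x), (retr_cont hM'0).comp (hc n)⟩
    have hgl : ∀ z, Tendsto (fun n => gn n z) atTop (𝓝 (f z)) := by
      intro z
      have h1 := ((retr_cont hM'0).tendsto (f z)).comp (hl z)
      rw [retr_self hM'0 ((hM z).trans (le_max_left _ _))] at h1
      exact h1
    obtain ⟨hn, h1, h2⟩ := conclude (fun _ => True) f gn hgl (by
      intro N ε hε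
      obtain ⟨g, hg, h, hh, hgh⟩ := approx1 hAP hconv f hf M' (fun n => gn (n + N))
        (fun n x => retr_norm hM'0 _) (fun z => (tendsto_add_atTop_iff_nat N).2 (hgl z)) ε hε
      exact ⟨g, hg, h, hh, trivial, hgh⟩)
    exact ⟨fun n => hn n, fun n => ⟨(hn n).continuous, (h1 n).1⟩, h2⟩

theorem main2 (hAP : AP ℝ E) (hX : IsCompact X) (hconv : Convex ℝ X) (f : X → E) (hf : IsAff f)
    (fn : ℕ → X → E) (hc : ∀ n, Continuous (fn n)) (hb : ∀ n x, ‖fn n x‖ ≤ 1)
    (hl : ∀ z, Tendsto (fun n => fn n z) atTop (𝓝 (f z))) :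
    ∃ hn : ℕ → X → E, (∀ n, Continuous (hn n) ∧ IsAff (hn n) ∧ ∀ x, ‖hn n x‖ ≤ 1) ∧
      ∀ z, Tendsto (fun n => hn n z) atTop (𝓝 (f z)) := by
  rcases isEmpty_or_nonempty X with hemp | hne
  · exact ⟨fun _ => f, fun _ => ⟨continuous_of_const fun x => (hemp.false x).elim, hf,
      fun x => (hemp.false x).elim⟩, fun z => tendsto_const_nhds⟩
  · have : CompactSpace X := isCompact_iff_compactSpace.1 hX
    let gn : ℕ → C(X, E) := fun n => ⟨fn n, hc n⟩
    obtain ⟨hn, h1, h2⟩ := conclude (fun h => ∀ x, ‖h x‖ ≤ 1) f gn hl (by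
      intro N ε hε
      exact approx2 hAP hconv f hf (fun n => gn (n + N))
        (fun n x => hb _ _) (fun z => (tendsto_add_atTop_iff_nat N).2 (hl z)) ε hε)
    exact ⟨fun n => hn n, fun n => ⟨(hn n).continuous, (h1 n).1, (h1 n).2⟩, h2⟩

end Fin

/-- The approximation property over `𝕜` gives the one over `ℝ`. -/
theorem ap_real {𝕜 : Type*} [RCLike 𝕜] {F : Type*} [NormedAddCommGroup F] [NormedSpace 𝕜 F]
    [NormedSpace ℝ F] [IsScalarTower ℝ 𝕜 F] (h : AP 𝕜 F) : AP ℝ F := by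
  intro K hK ε hε
  obtain ⟨T, hT, hTK⟩ := h K hK ε hε
  refine ⟨T.restrictScalars ℝ, ?_, hTK⟩
  have h1 : FiniteDimensional ℝ (LinearMap.range (T : F →ₗ[𝕜] F)) :=
    FiniteDimensional.trans ℝ 𝕜 (LinearMap.range (T : F →ₗ[𝕜] F))
  exact h1

end Pool.Agent.Q196.AB
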