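import Mathlib

set_option autoImplicit false

/-! Functionals on `C(Z, E)` are dominated by positive functionals on `C(Z, ℝ)`. -/

namespace Pool.Agent.Q196.AB

open MeasureTheory Set Filter Topology
open scoped CompactlySupported

section Dom

variable {Z : Type*} [TopologicalSpace Z] [CompactSpace Z]
variable {E : Type*} [NormedAddCommGroup E] [NormedSpace ℝ E]

/-- The norm of a continuous map, as a continuous function. -/
def nm (g : C(Z, E)) : C(Z, ℝ) := ⟨fun z => ‖g z‖, g.continuous.norm⟩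

@[simp] theorem nm_apply (g : C(Z, E)) (z : Z) : nm g z = ‖g z‖ := rfl

theorem norm_mono_of {u v : C(Z, ℝ)} (h0 : ∀ z, 0 ≤ u z) (h : ∀ z, u z ≤ v z) : ‖u‖ ≤ ‖v‖ := by
  rw [ContinuousMap.norm_le _ (norm_nonneg _)]
  intro z
  rw [Real.norm_eq_abs, abs_of_nonneg (h0 z)]
  exact (h z).trans ((le_abs_self _).trans (v.norm_coe_le_norm z))

theorem exists_dom (μ : C(Z, E) →L[ℝ] ℝ) : ∃ L : C(Z, ℝ) →ₗ[ℝ] ℝ,
    (∀ g, 0 ≤ g → 0 ≤ L g) ∧ ∀ g : C(Z, E), |μ g| ≤ L (nm g) := by
  let N : C(Z, ℝ) × C(Z, E) → ℝ := fun x => ‖μ‖ * ‖(x.1 + nm x.2) ⊔ 0‖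
  let D : Submodule ℝ (C(Z, ℝ) × C(Z, E)) := (⊥ : Submodule ℝ C(Z, ℝ)).prod ⊤
  let f : (C(Z, ℝ) × C(Z, E)) →ₗ.[ℝ] ℝ :=
    ⟨D, (μ.toLinearMap ∘ₗ LinearMap.snd ℝ C(Z, ℝ) C(Z, E)).domRestrict D⟩
  obtain ⟨G, hG1, hG2⟩ := exists_extension_of_le_sublinear f N
    (by
      intro c hc x
      have h1 : ((c • x).1 + nm (c • x).2) ⊔ 0 = c • ((x.1 + nm x.2) ⊔ 0) := by
        ext z
        simp only [Prod.smul_fst, Prod.smul_snd, ContinuousMap.sup_apply, ContinuousMap.add_apply,
          ContinuousMap.smul_apply, nm_apply, ContinuousMap.zero_apply, smul_eq_mul, norm_smul,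
          Real.norm_eq_abs, abs_of_pos hc]
        rw [← mul_add, mul_max_of_nonneg _ _ hc.le, mul_zero]
      show ‖μ‖ * _ = c * (‖μ‖ * _)
      rw [h1, norm_smul, Real.norm_eq_abs, abs_of_pos hc]
      ring)
    (by
      intro x y
      show ‖μ‖ * _ ≤ ‖μ‖ * _ + ‖μ‖ * _
      rw [← mul_add]
      refine mul_le_mul_of_nonneg_left ?_ (norm_nonneg _)
      refine le_trans (norm_mono_of (v := ((x.1 + nm x.2) ⊔ 0) + ((y.1 + nm y.2) ⊔ 0)) ?_ ?_)
        (norm_add_le _ _)
      · intro z; simp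
      · intro z
        simp only [ContinuousMap.sup_apply, ContinuousMap.add_apply, nm_apply,
          ContinuousMap.zero_apply, Prod.fst_add, Prod.snd_add]
        have := norm_add_le (x.2 z) (y.2 z)
        refine max_le ?_ ?_
        · have h1 := le_max_left (x.1 z + ‖x.2 z‖) 0
          have h2 := le_max_left (y.1 z + ‖y.2 z‖) 0
          linarith
        · have h1 := le_max_right (x.1 z + ‖x.2 z‖) 0
          have h2 := le_max_right (y.1 z + ‖y.2 z‖) 0
          linarith)
    (by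
      intro x
      have hx : (x : C(Z, ℝ) × C(Z, E)).1 = 0 := by
        have := x.2
        rw [Submodule.mem_prod] at this
        simpa using this.1
      show μ (x : C(Z, ℝ) × C(Z, E)).2 ≤ ‖μ‖ * ‖((x : C(Z, ℝ) × C(Z, E)).1 + nm _) ⊔ 0‖
      refine (le_abs_self _).trans ((μ.le_opNorm _).trans ?_)
      refine mul_le_mul_of_nonneg_left ?_ (norm_nonneg _)
      rw [hx, ContinuousMap.norm_le _ (norm_nonneg _)]
      intro z
      have h1 := ((0 + nm (x : C(Z, ℝ) × C(Z, E)).2) ⊔ 0).norm_coe_le_norm z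
      simp only [ContinuousMap.sup_apply, nm_apply,
          ContinuousMap.zero_apply, zero_add] at h1
      rw [max_eq_left (norm_nonneg _)] at h1
      simpa using h1)
  refine ⟨G ∘ₗ LinearMap.inl ℝ _ _, ?_, ?_⟩
  · intro g hg
    have h1 := hG2 (-g, 0)
    have h2 : ((-g, (0 : C(Z, E))).1 + nm (-g, (0 : C(Z, E))).2) ⊔ 0 = 0 := by
      ext z
      have h3 : 0 ≤ g z := hg z
      simp [h3]
    simp only [N] at h1
    rw [h2, norm_zero, mul_zero] at h1
    have h3 : G (-g, (0 : C(Z, E))) = - G (g, 0) := by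
      rw [← map_neg]; simp
    rw [h3] at h1
    show 0 ≤ G (g, 0)
    linarith
  · intro g
    have key : ∀ g : C(Z, E), μ g ≤ G (nm g, 0) := by
      intro g
      have h1 := hG2 (- nm g, g)
      have h2 : ((- nm g, g).1 + nm (- nm g, g).2) ⊔ 0 = 0 := by
        ext z
        simp
      simp only [N] at h1
      rw [h2, norm_zero, mul_zero] at h1
      have h4 : (- nm g, g) = ((0 : C(Z, ℝ)), g) - (nm g, (0 : C(Z, E))) := by simp
      rw [h4, map_sub] at h1
      have hmem : ((0 : C(Z, ℝ)), g) ∈ D := by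
        rw [Submodule.mem_prod]; simp
      have h5 : G ((0 : C(Z, ℝ)), g) = μ g := hG1 ⟨_, hmem⟩
      rw [h5] at h1
      linarith
    rw [abs_le]
    constructor
    · have h1 := key (-g)
      have h2 : nm (-g) = nm g := by ext z; simp
      rw [h2, map_neg] at h1
      show - G (nm g, 0) ≤ μ g
      linarith
    · exact key g

end Dom

section Meas

variable {Z : Type*} [TopologicalSpace Z] [CompactSpace Z] [T2Space Z] [MeasurableSpace Z]
  [BorelSpace Z]

theorem exists_measure (L : C(Z, ℝ) →ₗ[ℝ] ℝ) (hL : ∀ g, 0 ≤ g → 0 ≤ L g) :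
    ∃ m : Measure Z, IsFiniteMeasure m ∧ m.Regular ∧ ∀ g : C(Z, ℝ), ∫ z, g z ∂m = L g := by
  let Λ : C_c(Z, ℝ) →ₚ[ℝ] ℝ :=
  { toFun := fun g => L g.toContinuousMap
    map_add' := fun g g' => map_add L g.toContinuousMap g'.toContinuousMap
    map_smul' := fun c g => map_smul L c g.toContinuousMap
    monotone' := fun g g' hgg' => by
      have h1 : 0 ≤ g'.toContinuousMap - g.toContinuousMap := by
        intro z
        have := hgg' z
        simpa using this
      have h2 := hL _ h1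
      rw [map_sub] at h2
      show L g.toContinuousMap ≤ L g'.toContinuousMap
      linarith }
  have key : ∀ g : C(Z, ℝ), ∫ z, g z ∂(RealRMK.rieszMeasure Λ) = L g := by
    intro g
    let g' : C_c(Z, ℝ) :=
    { toFun := g
      hasCompactSupport' := HasCompactSupport.of_compactSpace _ }
    exact RealRMK.integral_rieszMeasure Λ g'
  refine ⟨RealRMK.rieszMeasure Λ, ?_, inferInstance, key⟩
  exact ⟨isCompact_univ.measure_lt_top⟩

end Meas

end Pool.Agent.Q196.AB
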