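import Mathlib

set_option autoImplicit false

/-! A finitely additive set function dominated by a finite measure: Hahn decomposition. -/

namespace Pool.Agent.Q196.AB

open MeasureTheory Set Filter Topology

variable {α : Type*} [MeasurableSpace α]

theorem finset_add (d : Set α → ℝ) (h0 : d ∅ = 0)
    (hadd : ∀ A B, MeasurableSet A → MeasurableSet B → Disjoint A B → d (A ∪ B) = d A + d B)
    (f : ℕ → Set α) (hf : ∀ i, MeasurableSet (f i)) (hd : Pairwise (Function.onFun Disjoint f))
    (s : Finset ℕ) : d (⋃ i ∈ s, f i) = ∑ i ∈ s, d (f i) := by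
  classical
  induction s using Finset.induction_on with
  | empty => simp [h0]
  | insert a s ha ih =>
    rw [Finset.sum_insert ha, ← ih, Finset.set_biUnion_insert]
    refine hadd _ _ (hf a) (Finset.measurableSet_biUnion _ (fun i _ => hf i)) ?_
    rw [Set.disjoint_iUnion₂_right]
    intro i hi
    exact hd (by rintro rfl; exact ha hi)

theorem exists_signed (ν : Measure α) [IsFiniteMeasure ν] (d : Set α → ℝ) (C : ℝ)
    (hadd : ∀ A B, MeasurableSet A → MeasurableSet B → Disjoint A B → d (A ∪ B) = d A + d B)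
    (hbd : ∀ A, MeasurableSet A → |d A| ≤ C * ν.real A) :
    ∃ s : SignedMeasure α, ∀ A, MeasurableSet A → s A = d A := by
  classical
  have h0 : d ∅ = 0 := by
    have := hbd ∅ MeasurableSet.empty
    simp only [measureReal_empty, mul_zero] at this
    exact abs_nonpos_iff.1 this
  let s : SignedMeasure α :=
  { measureOf' := fun A => if MeasurableSet A then d A else 0
    empty' := by simp [h0]
    not_measurable' := by
      intro i hi
      simp [hi]
    m_iUnion' := by
      intro f hf hd
      have hU : MeasurableSet (⋃ i, f i) := MeasurableSet.iUnion hf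
      simp only [hf, if_true, hU]
      have hν : HasSum (fun i => ν.real (f i)) (ν.real (⋃ i, f i)) := by
        have h1 := measure_iUnion (μ := ν) hd hf
        have h2 : ∑' i, ν (f i) ≠ ⊤ := by
          rw [← h1]; exact measure_ne_top _ _
        have h3 := ENNReal.hasSum_toReal h2
        have h4 : ν.real (⋃ i, f i) = ∑' i, (ν (f i)).toReal := by
          rw [Measure.real, h1, ENNReal.tsum_toReal_eq (fun i => measure_ne_top _ _)]
        rw [h4]
        exact h3
      have hlim : Tendsto (fun t : Finset ℕ => C * (ν.real (⋃ i, f i) - ∑ i ∈ t, ν.real (f i)))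
          atTop (𝓝 0) := by
        have h1 : Tendsto (fun t : Finset ℕ => ∑ i ∈ t, ν.real (f i)) atTop
          (𝓝 (ν.real (⋃ i, f i))) := hν
        have h2 := (h1.const_sub (ν.real (⋃ i, f i))).const_mul C
        simpa using h2
      show Tendsto (fun t : Finset ℕ => ∑ i ∈ t, d (f i)) _ (𝓝 (d (⋃ i, f i)))
      rw [tendsto_iff_norm_sub_tendsto_zero]
      refine squeeze_zero (fun _ => norm_nonneg _) (fun t => ?_) hlim
      have hm : MeasurableSet (⋃ i ∈ t, f i) := Finset.measurableSet_biUnion _ (fun i _ => hf i)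
      have hsub : (⋃ i ∈ t, f i) ⊆ ⋃ i, f i := by
        intro x hx
        simp only [mem_iUnion] at hx ⊢
        obtain ⟨i, _, hx⟩ := hx
        exact ⟨i, hx⟩
      have h1 := hadd (⋃ i ∈ t, f i) ((⋃ i, f i) \ ⋃ i ∈ t, f i) hm (hU.diff hm)
        disjoint_sdiff_self_right
      rw [union_sdiff_cancel hsub, finset_add d h0 hadd f hf hd t] at h1
      have h2 : ν.real ((⋃ i, f i) \ ⋃ i ∈ t, f i) = ν.real (⋃ i, f i) - ∑ i ∈ t, ν.real (f i) := by
        rw [measureReal_sdiff hsub hm]
        congr 1
        exact finset_add (fun A => ν.real A) (by simp)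
          (fun A B _ hB hAB => measureReal_union hAB hB) f hf hd t
      have h3 := hbd ((⋃ i, f i) \ ⋃ i ∈ t, f i) (hU.diff hm)
      rw [h2] at h3
      rw [Real.norm_eq_abs, abs_sub_comm]
      have h4 : d (⋃ i, f i) - ∑ i ∈ t, d (f i) = d ((⋃ i, f i) \ ⋃ i ∈ t, f i) := by
        rw [h1]; ring
      rw [h4]
      exact h3 }
  refine ⟨s, fun A hA => ?_⟩
  show (if MeasurableSet A then d A else 0) = d A
  rw [if_pos hA]

/-- If `d` is additive and dominated by `ν`, and `d univ > 0`, then `d ≥ 0` on all measurable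
subsets of some measurable set `A` with `ν A > 0`. -/
theorem exists_hahn (ν : Measure α) [IsFiniteMeasure ν] (d : Set α → ℝ) (C : ℝ)
    (hadd : ∀ A B, MeasurableSet A → MeasurableSet B → Disjoint A B → d (A ∪ B) = d A + d B)
    (hbd : ∀ A, MeasurableSet A → |d A| ≤ C * ν.real A) (hpos : 0 < d univ) :
    ∃ A, MeasurableSet A ∧ ν A ≠ 0 ∧ ∀ B, MeasurableSet B → B ⊆ A → 0 ≤ d B := by
  obtain ⟨s, hs⟩ := exists_signed ν d C hadd hbd
  obtain ⟨A, hA, h1, h2⟩ := s.exists_compl_positive_negative
  refine ⟨A, hA, ?_, ?_⟩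
  · intro h0
    have h3 : d A = 0 := by
      have := hbd A hA
      rw [Measure.real, h0] at this
      simpa using this
    have h4 : d Aᶜ ≤ 0 := by
      rw [← hs _ hA.compl]
      exact VectorMeasure.nonpos_of_restrict_le_zero _ h2
    have h5 := hadd A Aᶜ hA hA.compl disjoint_compl_right
    rw [union_compl_self] at h5
    linarith
  · intro B hB hBA
    rw [← hs B hB]
    have h3 := VectorMeasure.zero_le_restrict_subset _ hA hBA h1
    exact VectorMeasure.nonneg_of_zero_le_restrict _ h3

end Pool.Agent.Q196.AB
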