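import Pool.Agent.Q196.AB.Riesz
import Pool.Agent.Q196.AB.Formula

set_option autoImplicit false

/-! Functionals vanishing on the continuous affine maps are small on sequences converging to an
affine map, if the target has the approximation property. -/

namespace Pool.Agent.Q196.AB

open MeasureTheory Set Filter Topology

/-- The approximation property. -/
def AP (𝕜 : Type*) [RCLike 𝕜] (E : Type*) [NormedAddCommGroup E] [NormedSpace 𝕜 E] : Prop :=
  ∀ K : Set E, IsCompact K → ∀ ε > 0, ∃ T : E →L[𝕜] E,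
    FiniteDimensional 𝕜 (LinearMap.range (T : E →ₗ[𝕜] E)) ∧ ∀ x ∈ K, ‖T x - x‖ < ε

theorem compact_union {F : Type*} [NormedAddCommGroup F] (K : ℕ → Set F)
    (hK : ∀ n, IsCompact (K n)) (r : ℕ → ℝ) (hr : Tendsto r atTop (𝓝 0))
    (hKr : ∀ n, ∀ x ∈ K n, ‖x‖ ≤ r n) : IsCompact (insert 0 (⋃ n, K n)) := by
  rw [isCompact_iff_ultrafilter_le_nhds']
  intro f hf
  by_cases h : ∃ n, K n ∈ f
  · obtain ⟨n, hn⟩ := h
    obtain ⟨x, hx, hfx⟩ := isCompact_iff_ultrafilter_le_nhds'.1 (hK n) f hn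
    exact ⟨x, Or.inr (mem_iUnion.2 ⟨n, hx⟩), hfx⟩
  · push Not at h
    refine ⟨0, mem_insert _ _, ?_⟩
    intro U hU
    rw [Metric.mem_nhds_iff] at hU
    obtain ⟨ε, hε, hU⟩ := hU
    have h1 : ∀ᶠ n in atTop, r n < ε := hr.eventually_lt_const hε
    rw [eventually_atTop] at h1
    obtain ⟨N, hN⟩ := h1
    have h2 : (⋂ n ∈ Finset.range N, (K n)ᶜ) ∈ (f : Filter F) := by
      rw [Filter.biInter_finset_mem]
      intro n _
      exact Ultrafilter.compl_mem_iff_notMem.2 (h n)
    filter_upwards [h2, hf] with x hx hx2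
    apply hU
    rw [mem_ball_zero_iff]
    rcases hx2 with rfl | hx2
    · simpa using hε
    · rw [mem_iUnion] at hx2
      obtain ⟨n, hn⟩ := hx2
      have h3 : N ≤ n := by
        by_contra hlt
        push Not at hlt
        simp only [mem_iInter, Finset.mem_range] at hx
        exact hx n hlt hn
      exact (hKr n x hn).trans_lt (hN n h3)

section Red

variable {Z : Type*} [TopologicalSpace Z] [CompactSpace Z] [MeasurableSpace Z] [BorelSpace Z]
variable {E : Type*} [NormedAddCommGroup E] [NormedSpace ℝ E]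

theorem ap_reduce (hAP : AP ℝ E) (m : Measure Z) [IsFiniteMeasure m] (f : ℕ → C(Z, E)) (F : Z → E)
    (hF : ∀ z, Tendsto (fun n => f n z) atTop (𝓝 (F z))) (M : ℝ) (hM : ∀ n z, ‖f n z‖ ≤ M)
    (ε : ℝ) (hε : 0 < ε) : ∃ φ : ℕ → ℕ, StrictMono φ ∧ ∃ T : E →L[ℝ] E,
      FiniteDimensional ℝ (LinearMap.range (T : E →ₗ[ℝ] E)) ∧
      ∀ n, ∫ z, ‖f (φ n) z - T (f (φ n) z)‖ ∂m ≤ ε := by
  have hsm : ∀ n, StronglyMeasurable (fun z => f n z) := fun n =>
    (f n).continuous.stronglyMeasurable_of_hasCompactSupport (HasCompactSupport.of_compactSpace _)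
  have hFsm : StronglyMeasurable F := stronglyMeasurable_of_tendsto atTop hsm
    (tendsto_pi_nhds.2 hF)
  have hFM : ∀ z, ‖F z‖ ≤ M := fun z => le_of_tendsto (hF z).norm
    (Eventually.of_forall fun n => hM n z)
  have hint : ∀ n, Integrable (fun z => ‖f n z - F z‖) m := fun n =>
    Integrable.of_bound ((hsm n).sub hFsm).norm.aestronglyMeasurable (M + M)
      (Eventually.of_forall fun z => by
        rw [norm_norm]
        exact (norm_sub_le _ _).trans (add_le_add (hM n z) (hFM z)))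
  have hlim : Tendsto (fun n => ∫ z, ‖f n z - F z‖ ∂m) atTop (𝓝 0) := by
    have h1 := tendsto_integral_of_dominated_convergence (μ := m)
      (F := fun n z => ‖f n z - F z‖) (f := fun _ => (0 : ℝ)) (fun _ => M + M)
      (fun n => ((hsm n).sub hFsm).norm.aestronglyMeasurable) (integrable_const _)
      (fun n => Eventually.of_forall fun z => by
        rw [norm_norm]
        exact (norm_sub_le _ _).trans (add_le_add (hM n z) (hFM z)))
      (Eventually.of_forall fun z => by
        have := ((hF z).sub_const (F z)).norm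
        simpa using this)
    simpa using h1
  obtain ⟨φ, hφ, hφ2⟩ := extraction_forall_of_eventually'
    (P := fun n k => ∫ z, ‖f k z - F z‖ ∂m ≤ (1 / 16) ^ n / 2) (by
      intro n
      have h1 : ∀ᶠ k in atTop, ∫ z, ‖f k z - F z‖ ∂m < (1 / 16) ^ n / 2 :=
        hlim.eventually_lt_const (by positivity)
      rw [eventually_atTop] at h1
      obtain ⟨N, hN⟩ := h1
      exact ⟨N, fun k hk => (hN k hk).le⟩)
  let g : ℕ → C(Z, E) := fun n => f (φ (n + 1)) - f (φ n)
  have hg : ∀ n, ∫ z, ‖g n z‖ ∂m ≤ (1 / 16) ^ n := by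
    intro n
    have h1 : ∫ z, ‖g n z‖ ∂m ≤ ∫ z, (‖f (φ (n + 1)) z - F z‖ + ‖f (φ n) z - F z‖) ∂m := by
      refine integral_mono (integrable_cont m (g n).continuous.norm)
        ((hint _).add (hint _)) fun z => ?_
      show ‖f (φ (n + 1)) z - f (φ n) z‖ ≤ _
      have : f (φ (n + 1)) z - f (φ n) z = (f (φ (n + 1)) z - F z) - (f (φ n) z - F z) := by
        abel
      rw [this]
      exact norm_sub_le _ _
    rw [integral_add (hint _) (hint _)] at h1
    have h2 := hφ2 (n + 1)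
    have h3 := hφ2 n
    have h4 : ((1 : ℝ) / 16) ^ (n + 1) ≤ (1 / 16) ^ n :=
      pow_le_pow_of_le_one (by norm_num) (by norm_num) (Nat.le_succ n)
    linarith
  let c : ℕ → ℝ := fun n => (1 / 2) ^ n
  let ψ : ℕ → E → E := fun n y => (c n + 8 ^ n * ‖y‖)⁻¹ • y
  have hden : ∀ n (y : E), 0 < c n + 8 ^ n * ‖y‖ := fun n y => by
    have : 0 < c n := by positivity
    positivity
  have hψc : ∀ n, Continuous (ψ n) := fun n =>
    (Continuous.inv₀ (by fun_prop) (fun y => (hden n y).ne')).smul continuous_id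
  have hψn : ∀ n y, ‖ψ n y‖ ≤ (1 / 8) ^ n := by
    intro n y
    show ‖(c n + 8 ^ n * ‖y‖)⁻¹ • y‖ ≤ _
    rw [norm_smul, norm_inv, Real.norm_eq_abs, abs_of_pos (hden n y), inv_mul_le_iff₀ (hden n y)]
    have h1 : (0 : ℝ) < c n := by positivity
    have h2 : (8 : ℝ) ^ n * (1 / 8) ^ n = 1 := by rw [← mul_pow]; norm_num
    calc ‖y‖ = 8 ^ n * (1 / 8) ^ n * ‖y‖ := by rw [h2, one_mul]
      _ ≤ c n * (1 / 8) ^ n + 8 ^ n * (1 / 8) ^ n * ‖y‖ := by
          have : 0 ≤ c n * (1 / 8) ^ n := by positivity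
          linarith
      _ = (c n + 8 ^ n * ‖y‖) * (1 / 8) ^ n := by ring
  let K : ℕ → Set E := fun n => (fun z => ψ n (g n z)) '' univ
  have hK : ∀ n, IsCompact (K n) := fun n =>
    isCompact_univ.image ((hψc n).comp (g n).continuous)
  have hKU : IsCompact (insert 0 (⋃ n, K n)) := by
    refine compact_union K hK (fun n => (1 / 8) ^ n)
      (tendsto_pow_atTop_nhds_zero_of_lt_one (by norm_num) (by norm_num)) ?_
    rintro n _ ⟨z, _, rfl⟩
    exact hψn n _
  have hK0 : IsCompact ((fun z => f (φ 0) z) '' univ) := isCompact_univ.image (f (φ 0)).continuous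
  set a := m.real univ with ha
  have ha0 : 0 ≤ a := measureReal_nonneg
  set ε' := ε / (3 * a + 2) with hε'
  have hε'0 : 0 < ε' := by positivity
  obtain ⟨T, hTf, hT⟩ := hAP _ (hKU.union hK0) ε' hε'0
  refine ⟨φ, hφ, T, hTf, ?_⟩
  have hTc : ∀ h : C(Z, E), Continuous (fun z => ‖h z - T (h z)‖) := fun h =>
    (h.continuous.sub (T.continuous.comp h.continuous)).norm
  have hgT : ∀ n, ∫ z, ‖g n z - T (g n z)‖ ∂m ≤ ε' * (c n * (a + 1)) := by
    intro n
    have h1 : ∀ z, ‖g n z - T (g n z)‖ ≤ ε' * (c n + 8 ^ n * ‖g n z‖) := by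
      intro z
      have h2 := hT (ψ n (g n z)) (Or.inl (Or.inr (mem_iUnion.2 ⟨n, z, mem_univ _, rfl⟩)))
      have h3 : g n z - T (g n z) = - ((c n + 8 ^ n * ‖g n z‖) • (T (ψ n (g n z)) - ψ n (g n z))) := by
        have h4 : (c n + 8 ^ n * ‖g n z‖) • ψ n (g n z) = g n z := by
          show (c n + 8 ^ n * ‖g n z‖) • ((c n + 8 ^ n * ‖g n z‖)⁻¹ • g n z) = g n z
          rw [smul_smul, mul_inv_cancel₀ (hden n _).ne', one_smul]
        rw [smul_sub, ← map_smul, h4]
        abel
      rw [h3, norm_neg, norm_smul, Real.norm_eq_abs, abs_of_pos (hden n _), mul_comm]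
      exact mul_le_mul_of_nonneg_right h2.le (hden n _).le
    have hgi : Integrable (fun z => ‖g n z‖) m := integrable_cont m (g n).continuous.norm
    have h2 : ∫ z, ‖g n z - T (g n z)‖ ∂m ≤ ∫ z, ε' * (c n + 8 ^ n * ‖g n z‖) ∂m :=
      integral_mono (integrable_cont m (hTc _))
        (((integrable_const (c n)).add (hgi.const_mul _)).const_mul _) h1
    rw [integral_const_mul, integral_add (integrable_const _) (hgi.const_mul _),
      integral_const_mul, integral_const, smul_eq_mul, ← ha] at h2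
    refine h2.trans (mul_le_mul_of_nonneg_left ?_ hε'0.le)
    have h3 : (8 : ℝ) ^ n * ∫ z, ‖g n z‖ ∂m ≤ c n := by
      calc (8 : ℝ) ^ n * ∫ z, ‖g n z‖ ∂m ≤ 8 ^ n * (1 / 16) ^ n :=
            mul_le_mul_of_nonneg_left (hg n) (by positivity)
        _ = c n := by show _ = ((1 : ℝ) / 2) ^ n; rw [← mul_pow]; norm_num
    linarith
  have hind : ∀ n, ∫ z, ‖f (φ n) z - T (f (φ n) z)‖ ∂m ≤
      ε' * (a + (∑ k ∈ Finset.range n, c k) * (a + 1)) := by
    intro n
    induction n with
    | zero =>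
      have h1 : ∀ z, ‖f (φ 0) z - T (f (φ 0) z)‖ ≤ ε' := by
        intro z
        rw [norm_sub_rev]
        exact (hT _ (Or.inr ⟨z, mem_univ _, rfl⟩)).le
      have h2 := integral_mono (μ := m) (integrable_cont m (hTc (f (φ 0))))
        (integrable_const ε') h1
      rw [integral_const, smul_eq_mul, ← ha] at h2
      simp only [Finset.range_zero, Finset.sum_empty, zero_mul, add_zero]
      linarith [mul_comm a ε']
    | succ n ih =>
      have h1 : ∀ z, ‖f (φ (n + 1)) z - T (f (φ (n + 1)) z)‖ ≤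
          ‖f (φ n) z - T (f (φ n) z)‖ + ‖g n z - T (g n z)‖ := by
        intro z
        have h2 : f (φ (n + 1)) z = f (φ n) z + g n z := by
          show _ = f (φ n) z + (f (φ (n + 1)) z - f (φ n) z)
          abel
        have h3 : f (φ (n + 1)) z - T (f (φ (n + 1)) z) =
            (f (φ n) z - T (f (φ n) z)) + (g n z - T (g n z)) := by
          rw [h2, map_add]; abel
        rw [h3]
        exact norm_add_le _ _
      have h2 := integral_mono (μ := m) (integrable_cont m (hTc (f (φ (n + 1)))))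
        ((integrable_cont m (hTc (f (φ n)))).add (integrable_cont m (hTc (g n)))) h1
      rw [integral_add' (integrable_cont m (hTc (f (φ n)))) (integrable_cont m (hTc (g n)))] at h2
      refine h2.trans ((add_le_add ih (hgT n)).trans (le_of_eq ?_))
      rw [Finset.sum_range_succ]
      ring
  intro n
  refine (hind n).trans ?_
  have h1 : ∑ k ∈ Finset.range n, c k ≤ 2 := sum_geometric_two_le n
  calc ε' * (a + (∑ k ∈ Finset.range n, c k) * (a + 1)) ≤ ε' * (a + 2 * (a + 1)) := by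
        refine mul_le_mul_of_nonneg_left ?_ hε'0.le
        have := mul_le_mul_of_nonneg_right h1 (by linarith : 0 ≤ a + 1)
        linarith
    _ = ε := by
        rw [hε']
        field_simp
        ring

end Red

section Main

variable {V : Type*} [AddCommGroup V] [Module ℝ V] [TopologicalSpace V]
  [IsTopologicalAddGroup V] [ContinuousSMul ℝ V] [LocallyConvexSpace ℝ V] [T2Space V]
variable {X : Set V} [CompactSpace X] [Nonempty X]

theorem scalar_star (hconv : Convex ℝ X) (u : X → ℝ) (hu : IsAff u) (M : ℝ) (un : ℕ → C(X, ℝ))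
    (hM : ∀ n x, |un n x| ≤ M) (hl : ∀ z, Tendsto (fun n => un n z) atTop (𝓝 (u z)))
    (lam : C(X, ℝ) →L[ℝ] ℝ) (hlam : ∀ g : C(X, ℝ), IsAff (g : X → ℝ) → lam g = 0) :
    Tendsto (fun n => lam (un n)) atTop (𝓝 0) := by
  have hX : IsCompact X := isCompact_iff_compactSpace.2 inferInstance
  letI : MeasurableSpace X := borel X
  haveI : BorelSpace X := ⟨rfl⟩
  obtain ⟨L, hL0, hL⟩ := exists_dom lam
  have hnm : ∀ g : C(X, ℝ), 0 ≤ g → nm g = g := by
    intro g hg
    ext z
    have : 0 ≤ g z := hg z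
    simp [abs_of_nonneg this]
  obtain ⟨ν₁, hf1, hr1, h1⟩ := exists_measure (L + (lam : C(X, ℝ) →ₗ[ℝ] ℝ)) (by
    intro g hg
    have := hL g
    rw [hnm g hg, abs_le] at this
    show 0 ≤ L g + lam g
    linarith [this.1])
  obtain ⟨ν₂, hf2, hr2, h2⟩ := exists_measure (L - (lam : C(X, ℝ) →ₗ[ℝ] ℝ)) (by
    intro g hg
    have := hL g
    rw [hnm g hg, abs_le] at this
    show 0 ≤ L g - lam g
    linarith [this.2])
  have hlam2 : ∀ g : C(X, ℝ), lam g = (∫ z, g z ∂ν₁ - ∫ z, g z ∂ν₂) / 2 := by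
    intro g
    have h3 : ∫ z, g z ∂ν₁ = L g + lam g := h1 g
    have h4 : ∫ z, g z ∂ν₂ = L g - lam g := h2 g
    rw [h3, h4]; ring
  have huM : ∀ x, |u x| ≤ M := fun x => le_of_tendsto (hl x).abs
    (Eventually.of_forall fun n => hM n x)
  have hlim : ∀ ν : Measure X, IsFiniteMeasure ν → Tendsto (fun n => ∫ z, un n z ∂ν) atTop
      (𝓝 (∫ z, u z ∂ν)) := by
    intro ν _
    exact tendsto_integral_of_dominated_convergence (fun _ => M)
      (fun n => (un n).continuous.measurable.aestronglyMeasurable) (integrable_const _)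
      (fun n => Eventually.of_forall fun z => by rw [Real.norm_eq_abs]; exact hM n z)
      (Eventually.of_forall fun z => hl z)
  have hform : ∀ ν : Measure X, IsFiniteMeasure ν → ν.Regular → ∫ z, u z ∂ν = phi u ν := by
    intro ν _ _
    exact bary_formula hX hconv u hu M huM (fun n z => un n z) (fun n => (un n).continuous) hl ν
  have hmass : ν₁.real univ = ν₂.real univ := by
    have h3 := hlam2 (ContinuousMap.const X 1)
    rw [hlam _ (by
      intro x y z t _ _ _
      simp)] at h3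
    simp only [ContinuousMap.const_apply, integral_const, smul_eq_mul, mul_one] at h3
    linarith
  have hb : Bary ν₂ (ctr ν₁ : V) := by
    intro l
    have h3 := hlam2 ⟨fun z : X => l (z : V), l.continuous.comp continuous_subtype_val⟩
    rw [hlam _ (by
      intro x y z t _ _ hz
      show l (z : V) = t • l (x : V) + (1 - t) • l (y : V)
      rw [hz, map_add, map_smul, map_smul])] at h3
    simp only [ContinuousMap.coe_mk] at h3
    have h4 := ctr_spec hX hconv ν₁ l
    rw [← hmass, ← h4]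
    linarith
  have hphi : phi u ν₁ = phi u ν₂ := by
    rw [phi_eq hX hconv u ν₂ (ctr ν₁) hb, phi, hmass]
  have h5 : Tendsto (fun n => (∫ z, un n z ∂ν₁ - ∫ z, un n z ∂ν₂) / 2) atTop
      (𝓝 ((∫ z, u z ∂ν₁ - ∫ z, u z ∂ν₂) / 2)) :=
    ((hlim ν₁ hf1).sub (hlim ν₂ hf2)).div_const 2
  rw [hform ν₁ hf1 hr1, hform ν₂ hf2 hr2, hphi, sub_self, zero_div] at h5
  refine h5.congr fun n => ?_
  rw [hlam2]

variable {E : Type*} [NormedAddCommGroup E] [NormedSpace ℝ E]

theorem IsAff.comp_clm {F : Type*} [NormedAddCommGroup F] [NormedSpace ℝ F] {f : X → E}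
    (hf : IsAff f) (T : E →L[ℝ] F) : IsAff (fun x => T (f x)) := by
  intro x y z t ht0 ht1 hz
  show T (f z) = t • T (f x) + (1 - t) • T (f y)
  rw [hf x y z t ht0 ht1 hz, map_add, map_smul, map_smul]

theorem finite_rank_star (hconv : Convex ℝ X) (f : X → E) (hf : IsAff f) (M : ℝ)
    (fn : ℕ → C(X, E)) (hM : ∀ n x, ‖fn n x‖ ≤ M)
    (hl : ∀ z, Tendsto (fun n => fn n z) atTop (𝓝 (f z)))
    (μ : C(X, E) →L[ℝ] ℝ) (hμ : ∀ g : C(X, E), IsAff (g : X → E) → μ g = 0) (T : E →L[ℝ] E)
    (hT : FiniteDimensional ℝ (LinearMap.range (T : E →ₗ[ℝ] E))) :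
    Tendsto (fun n => μ (T.compLeftContinuous ℝ X (fn n))) atTop (𝓝 0) := by
  let b := Module.finBasis ℝ (LinearMap.range (T : E →ₗ[ℝ] E))
  let p : Fin (Module.finrank ℝ (LinearMap.range (T : E →ₗ[ℝ] E))) → E →L[ℝ] ℝ := fun i =>
    (LinearMap.toContinuousLinearMap (b.coord i)) ∘L T.rangeRestrict
  have hsum : ∀ y, T y = ∑ i, p i y • (b i : E) := by
    intro y
    have h1 := b.sum_repr (T.rangeRestrict y)
    have h2 := congrArg (Subtype.val) h1
    rw [Submodule.coe_sum] at h2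
    exact h2.symm
  let R : E → (ℝ →L[ℝ] E) := fun e => ContinuousLinearMap.toSpanSingleton ℝ e
  have hTn : ∀ n, μ (T.compLeftContinuous ℝ X (fn n)) =
      ∑ i, μ ((R (b i)).compLeftContinuous ℝ X ((p i).compLeftContinuous ℝ X (fn n))) := by
    intro n
    rw [← map_sum]
    congr 1
    ext x
    rw [ContinuousMap.sum_apply]
    exact hsum (fn n x)
  simp only [hTn]
  rw [show (0 : ℝ) = ∑ i : Fin (Module.finrank ℝ (LinearMap.range (T : E →ₗ[ℝ] E))), (0 : ℝ) by simp]
  refine tendsto_finsetSum _ fun i _ => ?_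
  refine scalar_star hconv (fun x => p i (f x)) (hf.comp_clm (p i)) (‖p i‖ * M)
    (fun n => (p i).compLeftContinuous ℝ X (fn n)) ?_ ?_
    (μ ∘L (R (b i)).compLeftContinuous ℝ X) ?_
  · intro n x
    show |p i (fn n x)| ≤ _
    rw [← Real.norm_eq_abs]
    exact (p i).le_opNorm_of_le (hM n x)
  · intro z
    exact ((p i).continuous.tendsto _).comp (hl z)
  · intro g hg
    refine hμ _ ?_
    intro x y z t ht0 ht1 hz
    show g z • (b i : E) = t • (g x • (b i : E)) + (1 - t) • (g y • (b i : E))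
    rw [hg x y z t ht0 ht1 hz]
    simp only [smul_eq_mul, add_smul, mul_smul]

/-- The key smallness statement. -/
theorem star (hAP : AP ℝ E) (hconv : Convex ℝ X) (f : X → E) (hf : IsAff f) (M : ℝ)
    (fn : ℕ → C(X, E)) (hM : ∀ n x, ‖fn n x‖ ≤ M)
    (hl : ∀ z, Tendsto (fun n => fn n z) atTop (𝓝 (f z)))
    (μ : C(X, E) →L[ℝ] ℝ) (hμ : ∀ g : C(X, E), IsAff (g : X → E) → μ g = 0) (δ : ℝ)
    (hδ : 0 < δ) : ∃ n, |μ (fn n)| < δ := by
  letI : MeasurableSpace X := borel X
  haveI : BorelSpace X := ⟨rfl⟩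
  obtain ⟨L, hL0, hL⟩ := exists_dom μ
  obtain ⟨m, hm, _, hmL⟩ := exists_measure L hL0
  obtain ⟨φ, hφ, T, hTf, hT⟩ := ap_reduce hAP m fn f hl M hM (δ / 2) (by positivity)
  have h1 := finite_rank_star hconv f hf M (fun n => fn (φ n)) (fun n x => hM _ x)
    (fun z => (hl z).comp hφ.tendsto_atTop) μ hμ T hTf
  have h2 := h1.norm
  rw [norm_zero] at h2
  obtain ⟨n, hn⟩ := (h2.eventually_lt_const (half_pos hδ)).exists
  refine ⟨φ n, ?_⟩
  set h := T.compLeftContinuous ℝ X (fn (φ n)) with hh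
  have h3 : |μ (fn (φ n) - h)| ≤ δ / 2 := by
    refine (hL _).trans ?_
    rw [← hmL]
    exact hT n
  rw [Real.norm_eq_abs] at hn
  have h4 : μ (fn (φ n)) = μ (fn (φ n) - h) + μ h := by rw [map_sub]; ring
  rw [h4]
  exact (abs_add_le _ _).trans_lt (by linarith)

end Main

end Pool.Agent.Q196.AB
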